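import Pool.Agent.H.MP_c36447_co.A

namespace Pool.Agent.H.MP_e517fb_co

open Finset SimpleGraph Matrix Pool.Agent.H.MP_69260a_co Pool.Agent.H.MP_c36447_co
open scoped symmDiff

abbrev S := Finset (Fin 12)

def ch (x : S) (i : Fin 12) : ℤ := if i ∈ x then -1 else 1

lemma ch_sd (x y : S) (i : Fin 12) : ch (x ∆ y) i = ch x i * ch y i := by
  unfold ch; by_cases a : i ∈ x <;> by_cases b : i ∈ y <;> simp [mem_symmDiff, a, b]

lemma ch_sq (x : S) (i : Fin 12) : ch x i * ch x i = 1 := by unfold ch; split_ifs <;> simp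

lemma ch_sum (x : S) : ∑ i, ch x i = 12 - 2 * x.card := by
  have : ∀ i, ch x i = 1 - 2 * (if i ∈ x then 1 else 0) := fun i => by
    unfold ch; split_ifs <;> simp
  simp only [this, sum_sub_distrib, ← mul_sum]
  simp

lemma card_flip (s : S) {a b : Fin 12} (h : a ≠ b) (ha : a ∈ s) (hb : b ∈ s) :
    (s ∆ {a, b}).card + 2 = s.card := by
  have : ({a, b} : S) ⊆ s := by simp [insert_subset_iff, ha, hb]
  rw [symmDiff_of_ge this, ← card_pair h]
  exact card_sdiff_add_card_eq_card this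

def chi (T x : S) : ℤ := ∏ i ∈ T, ch x i

lemma chi_eq (T x : S) : chi T x = (-1) ^ (T ∩ x).card := by
  simp [chi, ch, prod_ite, filter_mem_eq_inter]

lemma chi_r (T x y : S) : chi T (x ∆ y) = chi T x * chi T y := by
  simp [chi, ch_sd, prod_mul_distrib]

lemma chi_l (T U x : S) : chi (T ∆ U) x = chi T x * chi U x := by
  have c : ∀ a b : S, chi a b = chi b a := fun a b => by rw [chi_eq, chi_eq, inter_comm]
  rw [c, chi_r, c x, c x]

lemma chi_pm (T x : S) : chi T x = 1 ∨ chi T x = -1 := by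
  rw [chi_eq]; exact neg_one_pow_eq_or ℤ _

lemma four (T : S) (h : T ≠ ∅) : ∑ x, chi T x = 0 := by
  obtain ⟨i, hi⟩ := nonempty_iff_ne_empty.2 h
  have k : chi T {i} = -1 := by rw [chi_eq, inter_singleton_of_mem hi]; simp
  exact flip0 (fun x => x ∆ {i}) (fun x => by simp) _ fun x => by rw [chi_r, k]; ring

def R1 : S := {0, 1, 2, 3, 4, 5}
def C1 : S := {0, 1, 6, 7}
def C2 : S := {2, 3, 8, 9}

def Ev (x : S) : Prop := chi univ x = 1
def Col (x : S) : Prop := chi C1 x = 1 ∧ chi C2 x = 1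
def Row (x : S) : Prop := chi R1 x = 1

instance : DecidablePred Ev := fun x => by unfold Ev; infer_instance
instance : DecidablePred Col := fun x => by unfold Col; infer_instance
instance : DecidablePred Row := fun x => by unfold Row; infer_instance

lemma Ev.sd {x y : S} (h : Ev x) (k : Ev y) : Ev (x ∆ y) := by
  unfold Ev at *; rw [chi_r, h, k]; rfl
lemma Col.sd {x y : S} (h : Col x) (k : Col y) : Col (x ∆ y) := by
  unfold Col at *; rw [chi_r, chi_r, h.1, h.2, k.1, k.2]; simp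
lemma Row.sd {x y : S} (h : Row x) (k : Row y) : Row (x ∆ y) := by
  unfold Row at *; rw [chi_r, h, k]; rfl

lemma Ev.ev {x : S} (h : Ev x) : x.card % 2 = 0 := by
  rw [Ev, chi_eq, univ_inter, neg_one_pow_eq_one_iff_even (by norm_num), Nat.even_iff] at h
  exact h

lemma cS : ∑ _x : S, (1 : ℤ) = 4096 := by simp

lemma cnt1 : ∑ x : S, (if Ev x then (1 : ℤ) else 0) = 2048 := by
  have : 2 * ∑ x : S, (if Ev x then (1 : ℤ) else 0) = ∑ _x : S, 1 + ∑ x, chi univ x := by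
    rw [mul_sum, ← sum_add_distrib]
    refine sum_congr rfl fun x _ => ?_
    rcases chi_pm univ x with a | a <;> simp [Ev, a]
  rw [cS, four _ (by decide)] at this
  omega

lemma exp8 (A B C : S) : 8 * ∑ x : S, (if chi A x = 1 ∧ chi B x = 1 ∧ chi C x = 1 then (1 : ℤ) else 0)
    = ∑ _x : S, 1 + ∑ x, chi A x + ∑ x, chi B x + ∑ x, chi C x + ∑ x, chi (A ∆ B) x +
      ∑ x, chi (A ∆ C) x + ∑ x, chi (B ∆ C) x + ∑ x, chi (A ∆ B ∆ C) x := by
  simp only [← sum_add_distrib]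
  rw [mul_sum]
  refine sum_congr rfl fun x _ => ?_
  simp only [chi_l]
  rcases chi_pm A x with a | a <;> rcases chi_pm B x with b | b <;>
    rcases chi_pm C x with c | c <;> simp [a, b, c]

lemma cnt2 : ∑ x : S, (if Ev x ∧ Col x then (1 : ℤ) else 0) = 512 := by
  have := exp8 univ C1 C2
  rw [cS, four _ (by decide), four _ (by decide), four _ (by decide), four _ (by decide),
    four _ (by decide), four _ (by decide), four _ (by decide)] at this
  have e : ∑ x : S, (if Ev x ∧ Col x then (1 : ℤ) else 0) =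
      ∑ x : S, (if chi univ x = 1 ∧ chi C1 x = 1 ∧ chi C2 x = 1 then (1 : ℤ) else 0) :=
    sum_congr rfl fun x _ => if_congr Iff.rfl rfl rfl
  omega

lemma cnt3 : ∑ x : S, (if Ev x ∧ (Row x ∨ Col x) then (1 : ℤ) else 0) = 1280 := by
  have : 16 * ∑ x : S, (if Ev x ∧ (Row x ∨ Col x) then (1 : ℤ) else 0) = 5 * ∑ _x : S, 1 +
      5 * ∑ x, chi univ x + 3 * ∑ x, chi R1 x + 3 * ∑ x, chi (univ ∆ R1) x +
      ∑ x, chi C1 x + ∑ x, chi C2 x + ∑ x, chi (C1 ∆ C2) x + ∑ x, chi (univ ∆ C1) x +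
      ∑ x, chi (univ ∆ C2) x + ∑ x, chi (univ ∆ C1 ∆ C2) x -
      ∑ x, chi (R1 ∆ C1) x - ∑ x, chi (R1 ∆ C2) x - ∑ x, chi (R1 ∆ C1 ∆ C2) x -
      ∑ x, chi (univ ∆ R1 ∆ C1) x - ∑ x, chi (univ ∆ R1 ∆ C2) x -
      ∑ x, chi (univ ∆ R1 ∆ C1 ∆ C2) x := by
    simp only [mul_sum, ← sum_add_distrib, ← sum_sub_distrib]
    refine sum_congr rfl fun x _ => ?_
    simp only [chi_l, Ev, Row, Col]
    rcases chi_pm univ x with a | a <;> rcases chi_pm R1 x with b | b <;>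
      rcases chi_pm C1 x with c | c <;> rcases chi_pm C2 x with d | d <;> simp [a, b, c, d]
  rw [cS, four _ (by decide), four _ (by decide), four _ (by decide), four _ (by decide),
    four _ (by decide), four _ (by decide), four _ (by decide), four _ (by decide),
    four _ (by decide), four _ (by decide), four _ (by decide), four _ (by decide),
    four _ (by decide), four _ (by decide), four _ (by decide)] at this
  omega

lemma tr1 : ∀ i : Fin 12, ∃ t ∈ ([{0, 1}, {2, 3}, {4, 5}, {6, 7}, {8, 9}, {10, 11}] : List S),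
    Ev t ∧ Col t ∧ Row t ∧ ch t i = -1 := by decide +kernel

lemma tr2 : ∀ i j : Fin 12, i ≠ j → ∃ t ∈ ([{0, 1}, {2, 3}, {4, 5}, {6, 7}, {8, 9}, {10, 11},
    {0, 2, 6, 8}, {0, 4, 6, 10}] : List S), Ev t ∧ Col t ∧ Row t ∧ ch t i * ch t j = -1 := by
  decide +kernel

lemma pr_col : ∀ a b : Fin 12, a ≠ b → a.val % 6 / 2 = b.val % 6 / 2 → Col {a, b} := by
  decide +kernel
lemma pr_row : ∀ a b : Fin 12, a ≠ b → a.val / 6 = b.val / 6 → Row {a, b} := by decide +kernel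
lemma pr_ev : ∀ a b : Fin 12, a ≠ b → Ev {a, b} := by decide +kernel

lemma pig {s : S} (h : 3 < s.card) (f : Fin 12 → ℕ) (hf : ∀ i, f i < 3) :
    ∃ a ∈ s, ∃ b ∈ s, a ≠ b ∧ f a = f b :=
  exists_ne_map_eq_of_card_lt_of_maps_to (t := range 3) (by simpa using h)
    fun i _ => by simpa using hf i

/-- one step from `y` towards `x` -/
lemma stp {x y : S} {a b : Fin 12} (ab : a ≠ b) (ha : a ∈ x ∆ y) (hb : b ∈ x ∆ y) :
    ((y ∆ {a, b}) ∆ y).card / 2 = 1 ∧ (x ∆ (y ∆ {a, b})).card / 2 + 1 = (x ∆ y).card / 2 := by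
  have := card_flip _ ab ha hb
  rw [symmDiff_assoc] at this
  refine ⟨?_, by omega⟩
  rw [symmDiff_comm, symmDiff_symmDiff_cancel_left, card_pair ab]

lemma tri {x y z : S} (h : Ev x) (k : Ev y) (l : Ev z) :
    (x ∆ z).card / 2 ≤ (x ∆ y).card / 2 + (y ∆ z).card / 2 := by
  have : (x ∆ z).card ≤ (x ∆ y).card + (y ∆ z).card :=
    (card_le_card (symmDiff_triangle x y z)).trans (card_union_le _ _)
  have := (h.sd k).ev
  have := (k.sd l).ev
  omega

lemma mkcert {V : Type} {δ : V → V → ℕ} (h0 : ∀ x, δ x x = 0) (hs : ∀ x y, δ x y = δ y x)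
    (ht : ∀ x y z, δ x z ≤ δ x y + δ y z)
    (hex : ∀ x y, y ≠ x → ∃ z, δ z y = 1 ∧ δ x z + 1 = δ x y) : Cert (gph δ) δ := by
  refine ⟨h0, fun u v w hadj => ?_, fun u v ne => ?_⟩
  · have e : δ v w = 1 := by
      rcases ((fromRel_adj _ _ _).1 hadj).2 with e | e
      · exact e
      · rw [hs]; exact e
    exact e ▸ ht u v w
  · obtain ⟨z, h1, h2⟩ := hex u v ne
    refine ⟨z, (fromRel_adj _ _ _).2 ⟨?_, Or.inl h1⟩, h2⟩
    rintro rfl
    rw [h0] at h1; omega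

lemma c2 {x y : S} (h : Ev x) (k : Ev y) (ne : y ≠ x) : 2 ≤ (x ∆ y).card := by
  have := (h.sd k).ev
  have nz : (x ∆ y).card ≠ 0 := fun e => ne (symmDiff_eq_bot.1 (card_eq_zero.1 e)).symm
  omega

abbrev VZ := {x : S // Ev x ∧ (Row x ∨ Col x)}
abbrev VX := {p : Bool × S // Ev p.2 ∧ (p.1 = true ∨ Col p.2)}

def dZ (x y : VZ) : ℕ := (x.1 ∆ y.1).card / 2
def dX (x y : VX) : ℕ := (if x.1.1 = y.1.1 then 0 else 1) + (x.1.2 ∆ y.1.2).card / 2

lemma certZ : Cert (gph dZ) dZ := by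
  refine mkcert (fun x => by simp [dZ]) (fun x y => by rw [dZ, dZ, symmDiff_comm])
    (fun x y z => tri x.2.1 y.2.1 z.2.1) ?_
  rintro ⟨x, hx⟩ ⟨y, hy⟩ ne
  have h2 := c2 hx.1 hy.1 (fun e => ne (Subtype.ext e))
  have he := (hx.1.sd hy.1).ev
  by_cases two : (x ∆ y).card = 2
  · exact ⟨⟨x, hx⟩, by simp [dZ, two], by simp [dZ, two]⟩
  rcases hy.2 with h | h
  · obtain ⟨a, ha, b, hb, ab, e⟩ := pig (show 3 < (x ∆ y).card by omega) (fun i => i.val / 6)
      (fun i => by omega)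
    exact ⟨⟨y ∆ {a, b}, hy.1.sd (pr_ev a b ab), Or.inl (h.sd (pr_row a b ab e))⟩, stp ab ha hb⟩
  · obtain ⟨a, ha, b, hb, ab, e⟩ := pig (show 3 < (x ∆ y).card by omega) (fun i => i.val % 6 / 2)
      (fun i => by omega)
    exact ⟨⟨y ∆ {a, b}, hy.1.sd (pr_ev a b ab), Or.inr (h.sd (pr_col a b ab e))⟩, stp ab ha hb⟩

lemma certX : Cert (gph dX) dX := by
  refine mkcert (fun x => by simp [dX]) (fun x y => by rw [dX, dX, symmDiff_comm]; simp [eq_comm])
    (fun x y z => ?_) ?_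
  · have := tri x.2.1 y.2.1 z.2.1
    unfold dX
    cases x.1.1 <;> cases y.1.1 <;> cases z.1.1 <;> simp <;> omega
  rintro ⟨⟨l, x⟩, hx⟩ ⟨⟨m, y⟩, hy⟩ ne
  simp only at hx hy
  by_cases xy : y = x
  · subst xy
    have : l ≠ m := fun e => ne (by subst e; rfl)
    exact ⟨⟨(l, y), hx⟩, by simp [dX, this], by simp [dX, this]⟩
  have h2 := c2 hx.1 hy.1 xy
  have he := (hx.1.sd hy.1).ev
  cases m
  · cases l
    · by_cases two : (x ∆ y).card = 2
      · exact ⟨⟨(false, x), hx⟩, by simp [dX, two], by simp [dX, two]⟩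
      obtain ⟨a, ha, b, hb, ab, e⟩ := pig (show 3 < (x ∆ y).card by omega) (fun i => i.val % 6 / 2)
        (fun i => by omega)
      have h : Col y := by simpa using hy.2
      obtain ⟨k1, k2⟩ := stp ab ha hb
      exact ⟨⟨(false, y ∆ {a, b}), hy.1.sd (pr_ev a b ab), Or.inr (h.sd (pr_col a b ab e))⟩,
        by simp [dX, card_pair ab], by simp [dX, k2]⟩
    · exact ⟨⟨(true, y), hy.1, Or.inl rfl⟩, by simp [dX], by simp [dX, add_comm]⟩
  · obtain ⟨a, ha, b, hb, ab⟩ := one_lt_card.1 (show 1 < (x ∆ y).card by omega)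
    obtain ⟨k1, k2⟩ := stp ab ha hb
    exact ⟨⟨(true, y ∆ {a, b}), hy.1.sd (pr_ev a b ab), Or.inl rfl⟩,
      by simp [dX, card_pair ab], by simp only [dX]; omega⟩

lemma sumZ (c : ℤ) : ∑ _x : VZ, c = 1280 * c := by
  have : (Fintype.card VZ : ℤ) = 1280 := by
    rw [← cnt3, Fintype.card_subtype, card_filter]; push_cast; rfl
  simp [this]

lemma sumX (f : Bool → ℤ) : ∑ x : VX, f x.1.1 = 2048 * f true + 512 * f false := by
  rw [← sum_subtype (univ.filter fun p : Bool × S => Ev p.2 ∧ (p.1 = true ∨ Col p.2)) (by simp)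
    (fun p => f p.1), sum_filter, Fintype.sum_prod_type, Fintype.sum_bool, ← cnt1, ← cnt2,
    sum_mul, sum_mul]
  simp

lemma col_iff {x t : S} (h : Col t) : Col (x ∆ t) ↔ Col x :=
  ⟨fun k => by simpa using k.sd h, fun k => k.sd h⟩

def shZ (t : S) (h : Ev t ∧ Col t ∧ Row t) (x : VZ) : VZ :=
  ⟨x.1 ∆ t, x.2.1.sd h.1, x.2.2.imp (fun k => k.sd h.2.2) fun k => k.sd h.2.1⟩
def shX (t : S) (h : Ev t ∧ Col t ∧ Row t) (x : VX) : VX :=
  ⟨(x.1.1, x.1.2 ∆ t), x.2.1.sd h.1, x.2.2.imp id fun k => k.sd h.2.1⟩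

lemma Z1 (i : Fin 12) : ∑ x : VZ, ch x.1 i = 0 := by
  obtain ⟨t, -, a, b, c, d⟩ := tr1 i
  exact flip0 (shZ t ⟨a, b, c⟩) (fun x => by simp [shZ]) _ fun x => by simp [shZ, ch_sd, d]

lemma Z2 (i j : Fin 12) (h : i ≠ j) : ∑ x : VZ, ch x.1 i * ch x.1 j = 0 := by
  obtain ⟨t, -, a, b, c, d⟩ := tr2 i j h
  refine flip0 (shZ t ⟨a, b, c⟩) (fun x => by simp [shZ]) _ fun x => ?_
  simp only [shZ, ch_sd]
  linear_combination (ch x.1 i * ch x.1 j) * d

lemma X1 (f : Bool → ℤ) (i : Fin 12) : ∑ x : VX, f x.1.1 * ch x.1.2 i = 0 := by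
  obtain ⟨t, -, a, b, c, d⟩ := tr1 i
  exact flip0 (shX t ⟨a, b, c⟩) (fun x => by simp [shX]) _ fun x => by simp [shX, ch_sd, d]

lemma X2 (i j : Fin 12) (h : i ≠ j) : ∑ x : VX, ch x.1.2 i * ch x.1.2 j = 0 := by
  obtain ⟨t, -, a, b, c, d⟩ := tr2 i j h
  refine flip0 (shX t ⟨a, b, c⟩) (fun x => by simp [shX]) _ fun x => ?_
  simp only [shX, ch_sd]
  linear_combination (ch x.1.2 i * ch x.1.2 j) * d

end Pool.Agent.H.MP_e517fb_co
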