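import Pool.Agent.H.MP_e517fb_co.A

namespace Pool.Agent.H.MP_e517fb_co

open Finset SimpleGraph Matrix Pool.Agent.H.MP_69260a_co Pool.Agent.H.MP_c36447_co
open scoped symmDiff

def d3 (a b : Fin 3) : ℕ := if a = b then 0 else 1
def dP (x y : Fin 3 × Bool) : ℕ := if x.1 = y.1 then (if x.2 = y.2 then 0 else 2) else 1

lemma cert3 : Cert (gph d3) d3 := mkcert (by decide) (by decide) (by decide) (by decide)
lemma certP : Cert (gph dP) dP := mkcert (by decide) (by decide) (by decide) (by decide)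

def GX : SimpleGraph (Fin 3 × VX) := gph d3 □ gph dX
def GZ : SimpleGraph ((Fin 3 × Bool) × VZ) := gph dP □ gph dZ

lemma cX : Cert GX (fun x y => d3 x.1 y.1 + dX x.2 y.2) := cert3.prod certX
lemma cZ : Cert GZ (fun x y => dP x.1 y.1 + dZ x.2 y.2) := certP.prod certZ

def fX (k : Fin 4) (a : Fin 3) (l : Bool) : ℤ :=
  ![if l then 7 else 8, if l then 2 else -7, ![1, -1, 0] a, ![1, 1, -2] a] k
def fZ (k : Fin 4) (a : Fin 3 × Bool) : ℤ :=
  if k = 0 then 1 else if k = a.1.succ then (if a.2 then -1 else 1) else 0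

def aX (x : Fin 3 × VX) (k : Fin 4 ⊕ Fin 12) : ℤ := Sum.elim (fun k => fX k x.1 x.2.1.1) (ch x.2.1.2) k
def aZ (x : (Fin 3 × Bool) × VZ) (k : Fin 4 ⊕ Fin 12) : ℤ := Sum.elim (fun k => fZ k x.1) (ch x.2.1) k

def wX (k : Fin 4 ⊕ Fin 12) : ℤ := Sum.elim ![12, -4, -78, -26] (fun _ => -39) k
def wZ (k : Fin 4 ⊕ Fin 12) : ℤ := Sum.elim ![624, -156, -156, -156] (fun _ => -39) k
def ev (k : Fin 4 ⊕ Fin 12) : ℤ := Sum.elim ![30720, -2560, -2560, -2560] (fun _ => -1920) k

lemma half {x y : S} (h : Ev x) (k : Ev y) :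
    4 * (((x ∆ y).card / 2 : ℕ) : ℤ) = 12 - ∑ i, ch x i * ch y i := by
  have := ch_sum (x ∆ y)
  simp only [ch_sd] at this
  have := (h.sd k).ev
  omega

lemma eX (x y : Fin 3 × VX) : 156 * ((d3 x.1 y.1 + dX x.2 y.2 : ℕ) : ℤ) =
    ∑ k, wX k * aX x k * aX y k := by
  have h := half x.2.2.1 y.2.2.1
  have k : ∀ a b : Fin 3, ∀ l m : Bool, ∑ k : Fin 4, ![12, -4, -78, -26] k * fX k a l * fX k b m =
      156 * ((d3 a b + (if l = m then 0 else 1) + 3 : ℕ) : ℤ) := by decide +kernel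
  rw [Fintype.sum_sum_type]
  simp only [wX, aX, Sum.elim_inl, Sum.elim_inr, k, mul_assoc (-39 : ℤ), ← mul_sum, dX]
  omega

lemma eZ (x y : (Fin 3 × Bool) × VZ) : 156 * ((dP x.1 y.1 + dZ x.2 y.2 : ℕ) : ℤ) =
    ∑ k, wZ k * aZ x k * aZ y k := by
  have h := half x.2.2.1 y.2.2.1
  have k : ∀ a b : Fin 3 × Bool, ∑ k : Fin 4, ![624, -156, -156, -156] k * fZ k a * fZ k b =
      156 * ((dP a b + 3 : ℕ) : ℤ) := by decide +kernel
  rw [Fintype.sum_sum_type]
  simp only [wZ, aZ, Sum.elim_inl, Sum.elim_inr, k, mul_assoc (-39 : ℤ), ← mul_sum, dZ]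
  omega

lemma oX (k j : Fin 4 ⊕ Fin 12) :
    wX k * ∑ x, aX x k * aX x j = 156 * if k = j then ev k else 0 := by
  rw [Fintype.sum_prod_type]
  rcases k with k | k <;> rcases j with j | j
  · simp only [aX, Sum.elim_inl, fun a => sumX (fun l => fX k a l * fX j a l)]
    revert k j
    decide +kernel
  · simp [aX, X1]
  · simp [aX, mul_comm (ch _ _), X1]
  · by_cases e : k = j
    · subst e
      simp only [aX, Sum.elim_inr, ch_sq, sumX (fun _ => 1)]
      simp [wX, ev]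
    · simp [aX, X2 k j e, e]

lemma oZ (k j : Fin 4 ⊕ Fin 12) :
    wZ k * ∑ x, aZ x k * aZ x j = 156 * if k = j then ev k else 0 := by
  rw [Fintype.sum_prod_type]
  rcases k with k | k <;> rcases j with j | j
  · simp only [aZ, Sum.elim_inl, sumZ]
    revert k j
    decide +kernel
  · simp [aZ, ← mul_sum, Z1]
  · simp [aZ, ← sum_mul, Z1]
  · by_cases e : k = j
    · subst e
      simp only [aZ, Sum.elim_inr, ch_sq, sumZ]
      simp [wZ, ev]
    · simp [aZ, Z2 k j e, e]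

lemma sp {V : Type} [Fintype V] [DecidableEq V] {G : SimpleGraph V} {δ : V → V → ℕ} (c : Cert G δ)
    (a : V → Fin 4 ⊕ Fin 12 → ℤ) (w : Fin 4 ⊕ Fin 12 → ℤ)
    (h1 : ∀ x y, 156 * (δ x y : ℤ) = ∑ k, w k * a x k * a y k)
    (h2 : ∀ k j, w k * ∑ x, a x k * a x j = 156 * if k = j then ev k else 0) :
    Polynomial.X ^ Fintype.card (Fin 4 ⊕ Fin 12) * (distMat G).charpoly =
      Polynomial.X ^ Fintype.card V * ∏ k, (Polynomial.X - Polynomial.C (ev k : ℝ)) := by
  refine diagp _ (fun x k => (a x k : ℝ)) (fun k => w k / 156) _ (fun x y => ?_) fun k j => ?_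
  · have e : 156 * (δ x y : ℝ) = ∑ k, (w k : ℝ) * a x k * a y k := by exact_mod_cast h1 x y
    simp only [distMat, of_apply, (c.dist _ _).2, div_mul_eq_mul_div, ← sum_div, ← e]
    ring
  · have e : (w k : ℝ) * ∑ x, (a x k : ℝ) * a x j = 156 * if k = j then (ev k : ℝ) else 0 := by
      exact_mod_cast h2 k j
    rw [div_mul_eq_mul_div, e]; ring

lemma canc {V W : Type} [Fintype V] [DecidableEq V] [Fintype W] [DecidableEq W]
    (G : SimpleGraph V) (H : SimpleGraph W) (q : Polynomial ℝ) (n : ℕ)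
    (e : Fintype.card V = Fintype.card W)
    (h1 : Polynomial.X ^ n * (distMat G).charpoly = Polynomial.X ^ Fintype.card V * q)
    (h2 : Polynomial.X ^ n * (distMat H).charpoly = Polynomial.X ^ Fintype.card W * q) :
    (distMat G).charpoly = (distMat H).charpoly := by
  rw [e, ← h2] at h1
  exact (Polynomial.isRegular_X_pow n).left h1

lemma cards : Fintype.card ((Fin 3 × Bool) × VZ) = Fintype.card (Fin 3 × VX) := by
  have h1 := sumZ 1
  have h2 := sumX (fun _ => 1)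
  simp only [sum_const, card_univ, nsmul_eq_mul, mul_one] at h1 h2
  simp only [Fintype.card_prod, Fintype.card_fin, Fintype.card_bool]
  omega

lemma regZ (u : (Fin 3 × Bool) × VZ) : ∑ v, GZ.dist u v = 30720 := by
  have h : 156 * ((∑ v, GZ.dist u v : ℕ) : ℤ) = ∑ k, aZ u k * (wZ k * ∑ v, aZ v k * aZ v (.inl 0)) := by
    simp only [(cZ.dist _ _).2]
    rw [Nat.cast_sum, mul_sum]
    simp only [eZ, mul_sum]
    rw [sum_comm]
    refine sum_congr rfl fun k _ => sum_congr rfl fun v _ => ?_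
    simp only [aZ, Sum.elim_inl, fZ, if_true]; ring
  simp only [oZ, mul_ite, mul_zero, sum_ite_eq', mem_univ, if_true] at h
  have : aZ u (.inl 0) * (156 * ev (.inl 0)) = 156 * 30720 := by simp [aZ, fZ, ev]
  omega

lemma trX (u : Fin 3 × VX) : 65 * ((∑ v, GX.dist u v : ℕ) : ℤ) =
    9 * 30720 * aX u (.inl 0) - 2560 * aX u (.inl 1) := by
  have h : 65 * (156 * ((∑ v, GX.dist u v : ℕ) : ℤ)) =
      9 * ∑ k, aX u k * (wX k * ∑ v, aX v k * aX v (.inl 0)) +
        ∑ k, aX u k * (wX k * ∑ v, aX v k * aX v (.inl 1)) := by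
    simp only [(cX.dist _ _).2]
    rw [Nat.cast_sum, mul_sum]
    simp only [eX, mul_sum, ← sum_add_distrib]
    rw [sum_comm]
    refine sum_congr rfl fun k _ => sum_congr rfl fun v _ => ?_
    have : 9 * aX v (.inl 0) + aX v (.inl 1) = 65 := by
      simp only [aX, Sum.elim_inl, fX]
      cases v.2.1.1 <;> simp
    linear_combination (-(wX k * aX u k * aX v k)) * this
  simp only [oX, mul_ite, mul_zero, sum_ite_eq', mem_univ, if_true] at h
  have e0 : ev (.inl 0) = 30720 := rfl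
  have e1 : ev (.inl 1) = -2560 := rfl
  rw [e0, e1] at h
  omega

lemma notX : ¬ ∃ c, ∀ u, ∑ v, GX.dist u v = c := by
  rintro ⟨c, h⟩
  have e : Ev ∅ ∧ Col ∅ := by decide
  have h1 := trX (0, ⟨(true, ∅), e.1, Or.inl rfl⟩)
  have h2 := trX (0, ⟨(false, ∅), e.1, Or.inr e.2⟩)
  rw [h] at h1 h2
  simp [aX, fX] at h1 h2
  omega

lemma great {p : Polynomial ℝ} {n N : ℕ}
    (h : Polynomial.X ^ n * p = Polynomial.X ^ N * ∏ k, (Polynomial.X - Polynomial.C (ev k : ℝ))) :
    IsGreatest {μ | p.IsRoot μ} ((30720 : ℕ) : ℝ) := by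
  rw [Nat.cast_ofNat]
  have k : ∀ μ : ℝ, μ ^ n * p.eval μ = μ ^ N * ∏ k, (μ - ev k) := fun μ => by
    simpa [Polynomial.eval_prod] using congrArg (Polynomial.eval μ) h
  constructor
  · have := k 30720
    rw [prod_eq_zero (mem_univ (Sum.inl 0)) (by simp [ev]), mul_zero] at this
    exact (mul_eq_zero.1 this).resolve_left (by positivity)
  · intro μ hμ
    have := k μ
    rw [show p.eval μ = 0 from hμ, mul_zero] at this
    rcases mul_eq_zero.1 this.symm with e | e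
    · rw [pow_eq_zero_iff'.1 e |>.1]; norm_num
    · obtain ⟨j, -, hj⟩ := prod_eq_zero_iff.1 e
      have b : ∀ j, ev j ≤ 30720 := by decide +kernel
      have : (ev j : ℝ) ≤ 30720 := by exact_mod_cast b j
      linarith

lemma rows {V : Type} [Fintype V] (G : SimpleGraph V) (c : ℕ) :
    distMat G *ᵥ (fun _ => 1) = (c : ℝ) • (fun _ => 1) ↔ ∀ u, ∑ v, G.dist u v = c := by
  rw [funext_iff]
  refine forall_congr' fun u => ?_
  simp only [mulVec, dotProduct, distMat, of_apply, mul_one, Pi.smul_apply, smul_eq_mul]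
  norm_cast

lemma pack {V W : Type} [Fintype V] [DecidableEq V] [Fintype W] [DecidableEq W]
    (G : SimpleGraph V) (H : SimpleGraph W) (c : ℕ) (h1 : G.Connected) (h2 : H.Connected)
    (h3 : (distMat G).charpoly = (distMat H).charpoly)
    (h4 : IsGreatest {μ | (distMat G).charpoly.IsRoot μ} (c : ℝ))
    (h5 : ∀ u, ∑ v, G.dist u v = c) (h6 : ¬ ∃ c, ∀ u, ∑ v, H.dist u v = c) :
    ∃ (V W : Type) (_ : Fintype V) (_ : DecidableEq V) (_ : Fintype W) (_ : DecidableEq W)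
    (G : SimpleGraph V) (H : SimpleGraph W) (d : ℝ), G.Connected ∧ H.Connected ∧
      (distMat G).charpoly = (distMat H).charpoly ∧
      IsGreatest {μ | (distMat G).charpoly.IsRoot μ} d ∧
      distMat G *ᵥ (fun _ => 1) = d • (fun _ => 1) ∧
      distMat H *ᵥ (fun _ => 1) ≠ d • (fun _ => 1) :=
  ⟨V, W, _, _, _, _, G, H, c, h1, h2, h3, h4, (rows G c).2 h5, fun h => h6 ⟨_, (rows H c).1 h⟩⟩

lemma conZ : GZ.Connected := by
  have e : Ev ∅ ∧ Col ∅ := by decide
  have : Nonempty VZ := ⟨⟨∅, e.1, Or.inr e.2⟩⟩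
  exact ⟨fun u v => (cZ.dist u v).1⟩

lemma conX : GX.Connected := by
  have e : Ev ∅ ∧ Col ∅ := by decide
  have : Nonempty VX := ⟨⟨(true, ∅), e.1, Or.inl rfl⟩⟩
  exact ⟨fun u v => (cX.dist u v).1⟩

lemma cospZX : (distMat GZ).charpoly = (distMat GX).charpoly :=
  canc GZ GX _ _ cards (sp cZ aZ wZ eZ oZ) (sp cX aX wX eX oX)

lemma great' {V : Type} [Fintype V] [DecidableEq V] (G : SimpleGraph V) {n : ℕ}
    (h : Polynomial.X ^ n * (distMat G).charpoly =
      Polynomial.X ^ Fintype.card V * ∏ k, (Polynomial.X - Polynomial.C (ev k : ℝ))) :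
    IsGreatest {μ | (distMat G).charpoly.IsRoot μ} ((30720 : ℕ) : ℝ) := great h

lemma greatZ : IsGreatest {μ | (distMat GZ).charpoly.IsRoot μ} ((30720 : ℕ) : ℝ) :=
  great' GZ (sp cZ aZ wZ eZ oZ)

lemma main : ∃ (V W : Type) (_ : Fintype V) (_ : DecidableEq V) (_ : Fintype W) (_ : DecidableEq W)
    (G : SimpleGraph V) (H : SimpleGraph W) (d : ℝ), G.Connected ∧ H.Connected ∧
      (distMat G).charpoly = (distMat H).charpoly ∧
      IsGreatest {μ | (distMat G).charpoly.IsRoot μ} d ∧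
      distMat G *ᵥ (fun _ => 1) = d • (fun _ => 1) ∧
      distMat H *ᵥ (fun _ => 1) ≠ d • (fun _ => 1) :=
  pack GZ GX 30720 conZ conX cospZX greatZ regZ notX

end Pool.Agent.H.MP_e517fb_co
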